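import Pool.Agent.X323.BT.Parseval

/-!
# Trajectories of characters: two integral estimates
-/

set_option autoImplicit false

namespace Pool.Agent.X323.BT

open MeasureTheory
open scoped ComplexConjugate

section

variable {K : Type*} [CommGroup K] [TopologicalSpace K] [IsTopologicalGroup K]

/-- sums (written as products) of one translate of an element of `X` for every index -/
def traj {ι : Type*} [Fintype ι] (γ : ι → (K →ₜ* K)) (X : Set (PontryaginDual K)) :
    Set (PontryaginDual K) :=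
  {χ | ∃ x : ι → PontryaginDual K, (∀ i, x i ∈ X) ∧ χ = ∏ i, PontryaginDual.map (γ i) (x i)}

variable {ι : Type*} [Fintype ι] (γ : ι → (K →ₜ* K))

/-- the product character -/
noncomputable def pm (x : ι → PontryaginDual K) : PontryaginDual K := ∏ i, PontryaginDual.map (γ i) (x i)

omit [IsTopologicalGroup K] in
lemma prod_char {α : Type*} (s : Finset α) (f : α → PontryaginDual K) (k : K) :
    (((∏ a ∈ s, f a) k : Circle) : ℂ) = ∏ a ∈ s, ((f a k : Circle) : ℂ) := by
  classical
  induction s using Finset.induction_on with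
  | empty => simp
  | insert a s ha ih =>
    rw [Finset.prod_insert ha, Finset.prod_insert ha, ← ih]
    rfl

omit [IsTopologicalGroup K] in
lemma pow_char (χ : PontryaginDual K) (n : ℕ) (k : K) : (χ ^ n) k = χ k ^ n := by
  induction n with
  | zero => rw [pow_zero, pow_zero]; rfl
  | succ n ih => rw [pow_succ, pow_succ, ← ih]; rfl

omit [IsTopologicalGroup K] in
lemma pm_apply (x : ι → PontryaginDual K) (k : K) :
    ((pm γ x k : Circle) : ℂ) = ∏ i, ((x i (γ i k) : Circle) : ℂ) := by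
  rw [pm, prod_char]
  rfl

omit [IsTopologicalGroup K] in
lemma pm_mul (x y : ι → PontryaginDual K) : pm γ (fun i => x i * y i) = pm γ x * pm γ y := by
  unfold pm
  rw [← Finset.prod_mul_distrib]
  rfl

omit [IsTopologicalGroup K] in
lemma traj_finite {X : Set (PontryaginDual K)} (hX : X.Finite) : (traj γ X).Finite := by
  have : traj γ X ⊆ (pm γ) '' (Set.pi Set.univ fun _ : ι => X) := by
    rintro χ ⟨x, hx, rfl⟩
    exact ⟨x, fun i _ => hx i, rfl⟩
  exact ((Set.Finite.pi' fun _ => hX).image _).subset (by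
    rintro χ ⟨x, hx, rfl⟩
    exact ⟨x, fun i => hx i, rfl⟩)

end

section

variable {K : Type*} [CommGroup K] [TopologicalSpace K] [IsTopologicalGroup K] [CompactSpace K]
  [MeasurableSpace K] [BorelSpace K] (μ : Measure K) [IsProbabilityMeasure μ] [μ.IsMulLeftInvariant]
variable {ι : Type*} [Fintype ι] (γ : ι → (K →ₜ* K))

/-- first estimate: convex combinations of characters have product with large `L²` norm -/
theorem lower {J : Type*} [Fintype J] (χ : J → PontryaginDual K) (w : J → ℝ)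
    (hw1 : ∑ j, w j = 1) :
    (1 : ℝ) ≤ (Nat.card (traj γ (Set.range χ)) : ℝ) *
      ∫ k, ∏ i, ‖∑ j, (w j : ℂ) * ((χ j (γ i k) : Circle) : ℂ)‖ ^ 2 ∂μ := by
  classical
  set m : (ι → J) → PontryaginDual K := fun φ => pm γ (fun i => χ (φ i)) with hm
  set T : Finset (PontryaginDual K) := Finset.univ.image m with hT
  set p : PontryaginDual K → ℝ := fun ψ => ∑ φ ∈ Finset.univ.filter (fun φ => m φ = ψ), ∏ i, w (φ i) with hp
  have h1 : ∀ k : K, ∏ i, ‖∑ j, (w j : ℂ) * ((χ j (γ i k) : Circle) : ℂ)‖ ^ 2 =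
      ‖∑ ψ ∈ T, (p ψ : ℂ) * ((ψ k : Circle) : ℂ)‖ ^ 2 := by
    intro k
    rw [Finset.prod_pow, ← norm_prod]
    congr 2
    rw [Finset.prod_univ_sum, Fintype.piFinset_univ]
    rw [← Finset.sum_fiberwise_of_maps_to (s := Finset.univ) (t := T) (g := m)
      (fun φ _ => Finset.mem_image_of_mem _ (Finset.mem_univ φ))]
    refine Finset.sum_congr rfl fun ψ _ => ?_
    rw [hp]
    push_cast
    rw [Finset.sum_mul]
    refine Finset.sum_congr rfl fun φ hφ => ?_
    rw [Finset.mem_filter] at hφ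
    rw [← hφ.2, hm, pm_apply, Finset.prod_mul_distrib]
  simp_rw [h1]
  rw [parseval]
  have h2 : ∑ ψ ∈ T, p ψ = 1 := by
    rw [hp]
    rw [Finset.sum_fiberwise_of_maps_to (s := Finset.univ) (t := T) (g := m)
      (fun φ _ => Finset.mem_image_of_mem _ (Finset.mem_univ φ))]
    have h3 := Finset.prod_univ_sum (fun _ : ι => (Finset.univ : Finset J)) (fun _ j => w j)
    rw [Fintype.piFinset_univ] at h3
    rw [← h3]
    simp [hw1]
  have h4 : Nat.card (traj γ (Set.range χ)) = T.card := by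
    have : traj γ (Set.range χ) = (T : Set (PontryaginDual K)) := by
      ext ψ
      simp only [traj, Set.mem_ofPred_eq, hT, Finset.coe_image, Finset.coe_univ, Set.image_univ,
        Set.mem_range]
      constructor
      · rintro ⟨x, hx, rfl⟩
        choose φ hφ using hx
        exact ⟨φ, by simp only [hm, pm, hφ]⟩
      · rintro ⟨φ, rfl⟩
        exact ⟨fun i => χ (φ i), fun i => ⟨φ i, rfl⟩, rfl⟩
    rw [this]
    simp
  rw [h4]
  have h5 := sq_sum_le_card_mul_sum_sq (s := T) (f := p)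
  rw [h2] at h5
  simpa using h5

/-- the character attached to a box index -/
noncomputable def bm (X : Finset (PontryaginDual K)) {L : ℕ} (N : ι → X → Fin L) : PontryaginDual K :=
  pm γ (fun i => ∏ x : X, x.1 ^ (N i x : ℕ))

omit [IsTopologicalGroup K] [CompactSpace K] [MeasurableSpace K] [BorelSpace K] in
lemma bm_shift (X : Finset (PontryaginDual K)) {L : ℕ} (N : ι → X → Fin L) (N' : ι → X → Fin (L + 1))
    (y : ι → PontryaginDual K) (hy : ∀ i, y i ∈ X) [∀ a b : PontryaginDual K, Decidable (a = b)]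
    (h : ∀ i x, (N' i x : ℕ) = N i x + if x.1 = y i then 1 else 0) :
    bm γ X N' = bm γ X N * pm γ y := by
  unfold bm
  rw [← pm_mul]
  congr 1
  ext1 i
  simp_rw [h, pow_add, Finset.prod_mul_distrib]
  congr 1
  rw [Finset.prod_eq_single (⟨y i, hy i⟩ : X)]
  · simp
  · intro x _ hx
    rw [if_neg, pow_zero]
    intro h1
    exact hx (Subtype.ext h1)
  · intro h1
    exact absurd (Finset.mem_univ _) h1

omit [IsTopologicalGroup K] [CompactSpace K] [MeasurableSpace K] [BorelSpace K] in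
lemma count_le (X : Finset (PontryaginDual K)) (L : ℕ) (ψ : PontryaginDual K) :
    Nat.card (traj γ (X : Set (PontryaginDual K))) * Nat.card {N : ι → X → Fin L // bm γ X N = ψ} ≤
      ((L + 1) ^ X.card) ^ Fintype.card ι := by
  classical
  have hch : ∀ t : traj γ (X : Set (PontryaginDual K)), ∃ x : ι → PontryaginDual K,
      (∀ i, x i ∈ X) ∧ pm γ x = t.1 := by
    rintro ⟨t, x, hx, rfl⟩
    exact ⟨x, hx, rfl⟩
  choose y hy hyt using hch
  let f : (traj γ (X : Set (PontryaginDual K))) × {N : ι → X → Fin L // bm γ X N = ψ} →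
      (ι → X → Fin (L + 1)) := fun q i x =>
    ⟨(q.2.1 i x : ℕ) + if x.1 = y q.1 i then 1 else 0, by
      have := (q.2.1 i x).2
      split_ifs <;> omega⟩
  have hf : Function.Injective f := by
    intro q q' hqq
    have h1 : bm γ X (f q) = bm γ X q.2.1 * pm γ (y q.1) := bm_shift γ X _ _ _ (hy q.1) (fun i x => rfl)
    have h2 : bm γ X (f q') = bm γ X q'.2.1 * pm γ (y q'.1) := bm_shift γ X _ _ _ (hy q'.1) (fun i x => rfl)
    rw [hqq, h2, q.2.2, q'.2.2, hyt, hyt] at h1
    have h3 : q.1 = q'.1 := Subtype.ext (mul_left_cancel h1).symm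
    have h4 : q.2 = q'.2 := by
      apply Subtype.ext
      ext i x
      have h5 := congrArg (fun g => ((g i x : Fin (L + 1)) : ℕ)) hqq
      simp only [f, h3] at h5
      omega
    exact Prod.ext h3 h4
  have h5 := Nat.card_le_card_of_injective f hf
  rw [Nat.card_prod] at h5
  refine h5.trans (le_of_eq ?_)
  rw [Nat.card_eq_fintype_card]
  simp

/-- second estimate: a product of box kernels has small `L²` norm -/
theorem upper (X : Finset (PontryaginDual K)) (L : ℕ) (hL : 0 < L) :
    (Nat.card (traj γ (X : Set (PontryaginDual K))) : ℝ) *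
      ∫ k, ∏ i, ‖∏ x ∈ X, ((L : ℂ)⁻¹ * ∑ n ∈ Finset.range L, ((x (γ i k) : Circle) : ℂ) ^ n)‖ ^ 2 ∂μ
      ≤ ((((L + 1 : ℕ) : ℝ) / L) ^ X.card) ^ Fintype.card ι := by
  classical
  set T : Finset (PontryaginDual K) := Finset.univ.image (bm (L := L) γ X) with hT
  set D : ℕ := X.card * Fintype.card ι with hD
  set p : PontryaginDual K → ℝ := fun ψ =>
    ((L : ℝ) ^ D)⁻¹ * (Finset.univ.filter (fun N : ι → X → Fin L => bm γ X N = ψ)).card with hp
  have h1 : ∀ k : K, ∏ i, ‖∏ x ∈ X, ((L : ℂ)⁻¹ * ∑ n ∈ Finset.range L, ((x (γ i k) : Circle) : ℂ) ^ n)‖ ^ 2 =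
      ‖∑ ψ ∈ T, (p ψ : ℂ) * ((ψ k : Circle) : ℂ)‖ ^ 2 := by
    intro k
    rw [Finset.prod_pow, ← norm_prod]
    congr 2
    have e1 : ∀ i, ∏ x ∈ X, ((L : ℂ)⁻¹ * ∑ n ∈ Finset.range L, ((x (γ i k) : Circle) : ℂ) ^ n) =
        ((L : ℂ)⁻¹) ^ X.card * ∑ a : X → Fin L, ∏ x : X, ((x.1 (γ i k) : Circle) : ℂ) ^ (a x : ℕ) := by
      intro i
      rw [Finset.prod_mul_distrib, Finset.prod_const]
      congr 1
      rw [← Finset.prod_coe_sort]
      simp_rw [Finset.sum_range]
      rw [Finset.prod_univ_sum, Fintype.piFinset_univ]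
    simp_rw [e1]
    rw [Finset.prod_mul_distrib, Finset.prod_const, Finset.card_univ, ← pow_mul,
      Finset.prod_univ_sum, Fintype.piFinset_univ]
    rw [← Finset.sum_fiberwise_of_maps_to (s := Finset.univ) (t := T) (g := bm (L := L) γ X)
      (fun φ _ => Finset.mem_image_of_mem _ (Finset.mem_univ φ)), Finset.mul_sum]
    refine Finset.sum_congr rfl fun ψ _ => ?_
    have e2 : ∑ N ∈ Finset.univ.filter (fun N : ι → X → Fin L => bm γ X N = ψ),
        ∏ i, ∏ x : X, ((x.1 (γ i k) : Circle) : ℂ) ^ (N i x : ℕ) =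
        ∑ N ∈ Finset.univ.filter (fun N : ι → X → Fin L => bm γ X N = ψ), ((ψ k : Circle) : ℂ) := by
      refine Finset.sum_congr rfl fun N hN => ?_
      rw [Finset.mem_filter] at hN
      rw [← hN.2, bm, pm_apply]
      refine Finset.prod_congr rfl fun i _ => ?_
      rw [prod_char]
      refine Finset.prod_congr rfl fun x _ => ?_
      rw [pow_char, Circle.coe_pow]
    rw [e2, Finset.sum_const, nsmul_eq_mul, hp]
    push_cast
    rw [inv_pow]
    ring
  simp_rw [h1]
  rw [parseval]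
  have hLD : (0 : ℝ) < (L : ℝ) ^ D := by positivity
  have h2 : ∑ ψ ∈ T, p ψ = 1 := by
    rw [hp, ← Finset.mul_sum, ← Nat.cast_sum,
      ← Finset.card_eq_sum_card_fiberwise (s := Finset.univ) (t := T) (f := bm (L := L) γ X)
      (fun φ _ => Finset.mem_image_of_mem _ (Finset.mem_univ φ))]
    simp only [Finset.card_univ, Fintype.card_pi, Fintype.card_fin, Finset.prod_const, Fintype.card_coe]
    push_cast
    rw [← pow_mul]
    exact inv_mul_cancel₀ hLD.ne'
  have h3 : ∀ ψ, (Nat.card (traj γ (X : Set (PontryaginDual K))) : ℝ) * p ψ ≤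
      ((((L + 1 : ℕ) : ℝ) / L) ^ X.card) ^ Fintype.card ι := by
    intro ψ
    have h4 := count_le γ X L ψ
    have h5 : Nat.card {N : ι → X → Fin L // bm γ X N = ψ} =
        (Finset.univ.filter (fun N : ι → X → Fin L => bm γ X N = ψ)).card := by
      rw [Nat.card_eq_fintype_card, Fintype.card_subtype]
    rw [h5] at h4
    have h6 : ((Nat.card (traj γ (X : Set (PontryaginDual K))) *
        (Finset.univ.filter (fun N : ι → X → Fin L => bm γ X N = ψ)).card : ℕ) : ℝ) ≤
        (((L + 1) ^ X.card) ^ Fintype.card ι : ℕ) := by exact_mod_cast h4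
    rw [div_pow, div_pow, ← pow_mul (L : ℝ), le_div_iff₀ hLD]
    push_cast at h6 ⊢
    calc _ = (Nat.card (traj γ (X : Set (PontryaginDual K))) : ℝ) *
        (Finset.univ.filter (fun N : ι → X → Fin L => bm γ X N = ψ)).card := by
          rw [hp]
          field_simp
      _ ≤ _ := h6
  have hp0 : ∀ ψ, 0 ≤ p ψ := fun ψ => by rw [hp]; positivity
  calc (Nat.card (traj γ (X : Set (PontryaginDual K))) : ℝ) * ∑ ψ ∈ T, p ψ ^ 2
      = ∑ ψ ∈ T, p ψ * ((Nat.card (traj γ (X : Set (PontryaginDual K))) : ℝ) * p ψ) := by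
        rw [Finset.mul_sum]
        exact Finset.sum_congr rfl fun ψ _ => by ring
    _ ≤ ∑ ψ ∈ T, p ψ * ((((L + 1 : ℕ) : ℝ) / L) ^ X.card) ^ Fintype.card ι :=
        Finset.sum_le_sum fun ψ _ => mul_le_mul_of_nonneg_left (h3 ψ) (hp0 ψ)
    _ = _ := by rw [← Finset.sum_mul, h2, one_mul]

end

end Pool.Agent.X323.BT
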