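import Mathlib

/-!
# Topological entropy of monoid actions on compact abelian groups and algebraic entropy of the dual action

The compact abelian group `K` is written multiplicatively; `PontryaginDual K` is the group of its
continuous characters `K → Circle`.
-/

set_option autoImplicit false

namespace Pool.Agent.X323.BT

open Filter Topology

/-- a left action of the monoid `S` on the compact abelian group `K` by continuous endomorphisms -/
structure EndAction (S K : Type*) [Monoid S] [CommGroup K] [TopologicalSpace K] where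
  /-- the endomorphism attached to an element of `S` -/
  toEnd : S → (K →ₜ* K)
  one_act : ∀ k : K, toEnd 1 k = k
  mul_act : ∀ (s t : S) (k : K), toEnd (s * t) k = toEnd s (toEnd t k)

/-- a left Folner net: non-empty finite subsets `F i` of `S`, indexed by a directed set, such that
`|s F_i \ F_i| / |F_i| → 0` for every `s ∈ S` -/
structure IsLeftFolnerNet {S I : Type*} [Monoid S] [Preorder I] (F : I → Finset S) : Prop where
  nonempty : ∀ i, (F i).Nonempty
  tendsto : ∀ s : S, Tendsto (fun i =>
    (((fun t => s * t) '' (F i : Set S) \ (F i : Set S)).ncard : ℝ) / ((F i).card : ℝ)) atTop (𝓝 0)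

/-- finite open covers of `K` -/
def IsFiniteOpenCover {K : Type*} [TopologicalSpace K] (𝒰 : Set (Set K)) : Prop :=
  𝒰.Finite ∧ (∀ U ∈ 𝒰, IsOpen U) ∧ ⋃₀ 𝒰 = Set.univ

/-- the least size of a subcover of `𝒱` -/
noncomputable def coverNumber {K : Type*} (𝒱 : Set (Set K)) : ℕ :=
  sInf {n | ∃ t : Finset (Set K), (t : Set (Set K)) ⊆ 𝒱 ∧ ⋃₀ (t : Set (Set K)) = Set.univ ∧ t.card = n}

section

variable {S K : Type*} [Monoid S] [CommGroup K] [TopologicalSpace K] (γ : EndAction S K)

/-- the join `𝒰_F` of the covers `γ(s)⁻¹(𝒰)`, `s ∈ F` -/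
def joinCover (F : Finset S) (𝒰 : Set (Set K)) : Set (Set K) :=
  {V | ∃ u : S → Set K, (∀ s ∈ F, u s ∈ 𝒰) ∧ V = ⋂ s ∈ F, (γ.toEnd s) ⁻¹' (u s)}

/-- the dual right action `χ · s = χ ∘ γ(s)` on the characters of `K` -/
noncomputable def dualAct (χ : PontryaginDual K) (s : S) : PontryaginDual K := PontryaginDual.map (γ.toEnd s) χ

/-- the trajectory `T_F(X) = ∑_{s ∈ F} X · s` (a product set, as the dual group is written
multiplicatively) -/
def trajectory (F : Finset S) (X : Set (PontryaginDual K)) : Set (PontryaginDual K) :=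
  {χ | ∃ x : S → PontryaginDual K, (∀ s ∈ F, x s ∈ X) ∧ χ = ∏ s ∈ F, dualAct γ (x s) s}

/-- `log N(𝒰_F) / |F|` -/
noncomputable def topRate (𝒰 : Set (Set K)) (F : Finset S) : EReal :=
  ((Real.log (coverNumber (joinCover γ F 𝒰)) / F.card : ℝ) : EReal)

/-- `log |T_F(X)| / |F|` -/
noncomputable def algRate (X : Finset (PontryaginDual K)) (F : Finset S) : EReal :=
  ((Real.log (Nat.card (trajectory γ F (X : Set (PontryaginDual K)))) / F.card : ℝ) : EReal)

variable {I : Type*} [Preorder I] (F : I → Finset S)

/-- topological entropy along the net `F`, limits taken as upper limits -/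
noncomputable def hTopSup : EReal :=
  ⨆ 𝒰 : {𝒰 : Set (Set K) // IsFiniteOpenCover 𝒰}, limsup (fun i => topRate γ 𝒰.1 (F i)) atTop

/-- topological entropy along the net `F`, limits taken as lower limits -/
noncomputable def hTopInf : EReal :=
  ⨆ 𝒰 : {𝒰 : Set (Set K) // IsFiniteOpenCover 𝒰}, liminf (fun i => topRate γ 𝒰.1 (F i)) atTop

/-- algebraic entropy of the dual action along the net `F`, limits taken as upper limits -/
noncomputable def hAlgSup : EReal :=
  ⨆ X : {X : Finset (PontryaginDual K) // X.Nonempty}, limsup (fun i => algRate γ X.1 (F i)) atTop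

/-- algebraic entropy of the dual action along the net `F`, limits taken as lower limits -/
noncomputable def hAlgInf : EReal :=
  ⨆ X : {X : Finset (PontryaginDual K) // X.Nonempty}, liminf (fun i => algRate γ X.1 (F i)) atTop

/-- `h` is the topological entropy of `γ` computed along the net `F`: for every finite open cover
the limit of `log N(𝒰_{F_i}) / |F_i|` exists, and `h` is the supremum of these limits -/
def HasTopEntropy (h : EReal) : Prop :=
  ∃ L : {𝒰 : Set (Set K) // IsFiniteOpenCover 𝒰} → EReal,
    (∀ 𝒰, Tendsto (fun i => topRate γ 𝒰.1 (F i)) atTop (𝓝 (L 𝒰))) ∧ h = ⨆ 𝒰, L 𝒰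

/-- `h` is the algebraic entropy of the dual action of `γ` computed along the net `F`: for every
finite non-empty set `X` of characters the limit of `log |T_{F_i}(X)| / |F_i|` exists, and `h` is the
supremum of these limits -/
def HasAlgEntropy (h : EReal) : Prop :=
  ∃ L : {X : Finset (PontryaginDual K) // X.Nonempty} → EReal,
    (∀ X, Tendsto (fun i => algRate γ X.1 (F i)) atTop (𝓝 (L X))) ∧ h = ⨆ X, L X

end

end Pool.Agent.X323.BT
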