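import Pool.Agent.X323.BT.Kernel
import Pool.Agent.X323.BT.Defs

/-!
# Covering numbers, Haar measure and the two comparison inequalities
-/

set_option autoImplicit false

namespace Pool.Agent.X323.BT

open MeasureTheory Filter Topology

variable {K : Type*} [CommGroup K] [TopologicalSpace K] [IsTopologicalGroup K]
variable {ι : Type*} [Fintype ι] (γ : ι → (K →ₜ* K))

/-- the join of the preimages of a family of sets -/
def jn (𝒰 : Set (Set K)) : Set (Set K) :=
  {V | ∃ u : ι → Set K, (∀ i, u i ∈ 𝒰) ∧ V = ⋂ i, (γ i) ⁻¹' (u i)}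

/-- the set of points whose orbit piece stays in `W` -/
def core (W : Set K) : Set K := ⋂ i, (γ i) ⁻¹' W

omit [IsTopologicalGroup K] in
lemma core_open {W : Set K} (hW : IsOpen W) : IsOpen (core γ W) :=
  isOpen_iInter_of_finite fun i => hW.preimage (γ i).continuous_toFun

omit [IsTopologicalGroup K] [Fintype ι] in
lemma one_mem_core {W : Set K} (hW : (1 : K) ∈ W) : (1 : K) ∈ core γ W := by
  refine Set.mem_iInter.2 fun i => ?_
  rw [Set.mem_preimage, map_one]
  exact hW

section meas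

variable [MeasurableSpace K] [BorelSpace K] (μ : Measure K) [μ.IsMulLeftInvariant]

lemma piece_le {U W : Set K} (hUW : ∀ a ∈ U, ∀ b ∈ U, a⁻¹ * b ∈ W) (y : ι → K) :
    μ (⋂ i, (γ i) ⁻¹' {k | (y i)⁻¹ * k ∈ U}) ≤ μ (core γ W) := by
  by_cases hne : (⋂ i, (γ i) ⁻¹' {k | (y i)⁻¹ * k ∈ U}).Nonempty
  · obtain ⟨e, he⟩ := hne
    rw [← measure_preimage_mul μ e⁻¹ (core γ W)]
    apply measure_mono
    intro e' he'
    refine Set.mem_iInter.2 fun i => ?_
    have h1 := hUW _ (Set.mem_iInter.1 he i) _ (Set.mem_iInter.1 he' i)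
    rw [Set.mem_preimage, map_mul, map_inv]
    convert h1 using 1
    group
  · rw [Set.not_nonempty_iff_eq_empty.1 hne, measure_empty]
    exact bot_le

/-- coverings by small sets are large -/
lemma one_le_cover [IsProbabilityMeasure μ] {U W : Set K} (hUW : ∀ a ∈ U, ∀ b ∈ U, a⁻¹ * b ∈ W)
    {𝒱 : Set (Set K)} (hfin : 𝒱.Finite) (hcov : ⋃₀ 𝒱 = Set.univ)
    (hV : ∀ V ∈ 𝒱, ∃ y : K, V = {k | y⁻¹ * k ∈ U}) :
    (1 : ℝ) ≤ (coverNumber (jn γ 𝒱) : ℝ) * μ.real (core γ W) := by
  classical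
  have hjfin : (jn γ 𝒱).Finite := by
    have : jn γ 𝒱 ⊆ (fun u : ι → Set K => ⋂ i, (γ i) ⁻¹' (u i)) '' {u | ∀ i, u i ∈ 𝒱} := by
      rintro V ⟨u, hu, rfl⟩
      exact ⟨u, hu, rfl⟩
    exact ((Set.Finite.pi' fun _ => hfin).image _).subset this
  have hjcov : ⋃₀ (jn γ 𝒱) = Set.univ := by
    rw [Set.eq_univ_iff_forall]
    intro k
    have h1 : ∀ i, ∃ u ∈ 𝒱, γ i k ∈ u := by
      intro i
      have : γ i k ∈ ⋃₀ 𝒱 := by rw [hcov]; trivial
      simpa using this
    choose u hu hku using h1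
    exact ⟨_, ⟨u, hu, rfl⟩, Set.mem_iInter.2 hku⟩
  have hne : {n | ∃ t : Finset (Set K), (t : Set (Set K)) ⊆ jn γ 𝒱 ∧
      ⋃₀ (t : Set (Set K)) = Set.univ ∧ t.card = n}.Nonempty :=
    ⟨_, hjfin.toFinset, by simp, by simpa using hjcov, rfl⟩
  obtain ⟨t, ht, htcov, htc⟩ := Nat.sInf_mem hne
  change t.card = coverNumber (jn γ 𝒱) at htc
  have h1 : ∀ V ∈ t, μ V ≤ μ (core γ W) := by
    intro V hVt
    obtain ⟨u, hu, rfl⟩ := ht hVt
    choose y hy using fun i => hV (u i) (hu i)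
    simp_rw [hy]
    exact piece_le γ μ hUW y
  have h2 : (1 : ENNReal) ≤ t.card * μ (core γ W) := by
    calc (1 : ENNReal) = μ (⋃₀ (t : Set (Set K))) := by rw [htcov, measure_univ]
      _ = μ (⋃ V ∈ t, V) := by rw [Set.sUnion_eq_biUnion]; rfl
      _ ≤ ∑ V ∈ t, μ V := measure_biUnion_finset_le _ _
      _ ≤ ∑ _V ∈ t, μ (core γ W) := Finset.sum_le_sum h1
      _ = t.card * μ (core γ W) := by rw [Finset.sum_const, nsmul_eq_mul]
  rw [← htc, Measure.real]
  have h3 := ENNReal.toReal_mono (ENNReal.mul_ne_top (by simp) (measure_ne_top μ _)) h2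
  simpa using h3

/-- maximal disjoint families of translates give small subcovers -/
lemma cover_le_one [IsProbabilityMeasure μ] {V W : Set K} (hW : IsOpen W) (hW1 : (1 : K) ∈ W)
    (hWV : ∀ a ∈ W, ∀ b ∈ W, a * b⁻¹ ∈ V)
    {𝒰 : Set (Set K)} (hL : ∀ x : K, ∃ u ∈ 𝒰, ∀ v ∈ V, x * v ∈ u) :
    (coverNumber (jn γ 𝒰) : ℝ) * μ.real (core γ W) ≤ 1 := by
  classical
  set D := core γ W with hD
  have hDo : IsOpen D := core_open γ hW
  let tr : K → Set K := fun x => {k | x⁻¹ * k ∈ D}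
  have htr : ∀ x, μ.real (tr x) = μ.real D := by
    intro x
    have := measure_preimage_mul μ x⁻¹ D
    rw [Measure.real, Measure.real, ← this]
    rfl
  have htro : ∀ x, IsOpen (tr x) := fun x => hDo.preimage (continuous_const.mul continuous_id)
  -- disjoint families are small
  have hsmall : ∀ t : Finset K, (t : Set K).PairwiseDisjoint tr → (t.card : ℝ) * μ.real D ≤ 1 := by
    intro t ht
    have h1 : μ.real (⋃ x ∈ t, tr x) = ∑ x ∈ t, μ.real (tr x) :=
      measureReal_biUnion_finset ht (fun x _ => (htro x).measurableSet)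
    simp_rw [htr] at h1
    rw [Finset.sum_const, nsmul_eq_mul] at h1
    rw [← h1]
    exact measureReal_le_one
  by_cases hpos : μ.real D = 0
  · rw [hpos, mul_zero]; exact zero_le_one
  have hpos' : 0 < μ.real D := lt_of_le_of_ne measureReal_nonneg (Ne.symm hpos)
  -- a family of maximal size
  let P : ℕ → Prop := fun n => ∃ t : Finset K, t.card = n ∧ (t : Set K).PairwiseDisjoint tr
  have hP0 : P 0 := ⟨∅, rfl, by simp⟩
  have hbd : ∀ n, P n → n ≤ ⌊1 / μ.real D⌋₊ := by
    rintro n ⟨t, rfl, ht⟩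
    apply Nat.le_floor
    rw [le_div_iff₀ hpos']
    exact hsmall t ht
  have hmaxP := Nat.findGreatest_spec (P := P) (Nat.zero_le ⌊1 / μ.real D⌋₊) hP0
  obtain ⟨t, htc, htd⟩ := hmaxP
  have hmax : ∀ n, P n → n ≤ t.card := by
    intro n hn
    rw [htc]
    exact Nat.le_findGreatest (hbd n hn) hn
  -- every point is in the V-neighbourhood of a translate
  have hcl : ∀ k : K, ∃ x ∈ t, (tr x ∩ tr k).Nonempty := by
    intro k
    by_contra hcon
    push Not at hcon
    have hkt : k ∉ t := by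
      intro hk
      have h1 := hcon k hk
      rw [Set.inter_self] at h1
      have h2 : k ∈ tr k := by
        change k⁻¹ * k ∈ D
        rw [inv_mul_cancel]
        exact one_mem_core γ hW1
      rw [h1] at h2
      exact h2
    have h3 : P (t.card + 1) := by
      refine ⟨insert k t, Finset.card_insert_of_notMem hkt, ?_⟩
      rw [Finset.coe_insert]
      apply Set.PairwiseDisjoint.insert htd
      intro x hx _
      change Disjoint (tr k) (tr x)
      rw [Set.disjoint_iff_inter_eq_empty, Set.inter_comm]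
      exact hcon x hx
    have := hmax _ h3
    omega
  choose u hu hVu using hL
  have hmem : t.card ∈ {n | P n} := ⟨t, rfl, htd⟩
  let s : Finset (Set K) := t.image (fun x => ⋂ i, (γ i) ⁻¹' (u (γ i x)))
  have hs : (s : Set (Set K)) ⊆ jn γ 𝒰 := by
    intro E hE
    rw [Finset.mem_coe, Finset.mem_image] at hE
    obtain ⟨x, _, rfl⟩ := hE
    exact ⟨fun i => u (γ i x), fun i => hu _, rfl⟩
  have hscov : ⋃₀ (s : Set (Set K)) = Set.univ := by
    rw [Set.eq_univ_iff_forall]
    intro k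
    obtain ⟨x, hx, z, hzx, hzk⟩ := hcl k
    refine ⟨_, Finset.mem_coe.2 (Finset.mem_image_of_mem _ hx), Set.mem_iInter.2 fun i => ?_⟩
    have h1 : γ i (x⁻¹ * z) ∈ W := Set.mem_iInter.1 hzx i
    have h2 : γ i (k⁻¹ * z) ∈ W := Set.mem_iInter.1 hzk i
    have h3 := hVu (γ i x) _ (hWV _ h1 _ h2)
    rw [Set.mem_preimage]
    convert h3 using 1
    rw [map_mul, map_mul, map_inv, map_inv]
    group
  have h4 : coverNumber (jn γ 𝒰) ≤ t.card := by
    have h6 : coverNumber (jn γ 𝒰) ≤ s.card := Nat.sInf_le ⟨s, hs, hscov, rfl⟩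
    exact h6.trans Finset.card_image_le
  have h5 : (coverNumber (jn γ 𝒰) : ℝ) ≤ t.card := by exact_mod_cast h4
  exact (mul_le_mul_of_nonneg_right h5 measureReal_nonneg).trans (hsmall t htd)

end meas

end Pool.Agent.X323.BT
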