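import Pool.Agent.X323.BT.Main

/-!
# The Bridge Theorem
-/

set_option autoImplicit false

namespace Pool.Agent.X323.BT

open Filter Topology

lemma le_of_eps {a b : EReal} (h : ∀ ε : ℝ, 0 < ε → a ≤ b + (ε : EReal)) : a ≤ b := by
  induction b with
  | bot =>
    have := h 1 one_pos
    simpa using this
  | top => exact le_top
  | coe b =>
    induction a with
    | bot => exact bot_le
    | top =>
      have := h 1 one_pos
      rw [← EReal.coe_add] at this
      exact absurd this (not_le.2 (EReal.coe_lt_top _))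
    | coe a =>
      rw [EReal.coe_le_coe_iff]
      apply le_of_forall_pos_le_add
      intro ε hε
      have := h ε hε
      rw [← EReal.coe_add, EReal.coe_le_coe_iff] at this
      exact this

lemma limsup_le_eps {I : Type*} {l : Filter I} [l.NeBot] {a b : I → EReal} (ε : ℝ)
    (h : ∀ᶠ i in l, a i ≤ b i + (ε : EReal)) : limsup a l ≤ limsup b l + (ε : EReal) := by
  calc limsup a l ≤ limsup (b + fun _ => (ε : EReal)) l := limsup_le_limsup (by exact h)
    _ ≤ limsup b l + limsup (fun _ => (ε : EReal)) l := by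
        apply EReal.limsup_add_le
        · right; rw [limsup_const]; exact EReal.coe_ne_top _
        · right; rw [limsup_const]; exact EReal.coe_ne_bot _
    _ = _ := by rw [limsup_const]

lemma liminf_le_eps {I : Type*} {l : Filter I} [l.NeBot] {a b : I → EReal} (ε : ℝ)
    (h : ∀ᶠ i in l, a i ≤ b i + (ε : EReal)) : liminf a l ≤ liminf b l + (ε : EReal) := by
  have h' : ∀ᶠ i in l, a i ≤ (ε : EReal) + b i := by
    filter_upwards [h] with i hi
    rwa [add_comm]
  calc liminf a l ≤ liminf ((fun _ => (ε : EReal)) + b) l := liminf_le_liminf (by exact h')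
    _ ≤ limsup (fun _ => (ε : EReal)) l + liminf b l := by
        apply EReal.liminf_add_le
        · left; rw [limsup_const]; exact EReal.coe_ne_bot _
        · left; rw [limsup_const]; exact EReal.coe_ne_top _
    _ = _ := by rw [limsup_const, add_comm]

section

variable {S K : Type*} [Monoid S] [CommGroup K] [TopologicalSpace K] (γ : EndAction S K)

lemma joinCover_eq (F : Finset S) (𝒰 : Set (Set K)) :
    joinCover γ F 𝒰 = jn (fun s : F => γ.toEnd s.1) 𝒰 := by
  classical
  ext V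
  constructor
  · rintro ⟨u, hu, rfl⟩
    refine ⟨fun s => u s.1, fun s => hu s.1 s.2, ?_⟩
    ext k
    simp
  · rintro ⟨u, hu, rfl⟩
    refine ⟨fun s => if h : s ∈ F then u ⟨s, h⟩ else ∅, fun s hs => ?_, ?_⟩
    · change (if h : s ∈ F then u ⟨s, h⟩ else ∅) ∈ 𝒰
      rw [dif_pos hs]; exact hu _
    · ext k
      simp only [Set.mem_iInter, Set.mem_preimage]
      constructor
      · intro h s hs
        rw [dif_pos hs]
        exact h ⟨s, hs⟩
      · intro h s
        have := h s.1 s.2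
        rwa [dif_pos s.2] at this

lemma trajectory_eq (F : Finset S) (X : Set (PontryaginDual K)) :
    trajectory γ F X = traj (fun s : F => γ.toEnd s.1) X := by
  classical
  ext χ
  constructor
  · rintro ⟨x, hx, rfl⟩
    refine ⟨fun s => x s.1, fun s => hx s.1 s.2, ?_⟩
    rw [← Finset.prod_coe_sort]
    rfl
  · rintro ⟨x, hx, rfl⟩
    refine ⟨fun s => if h : s ∈ F then x ⟨s, h⟩ else 1, fun s hs => ?_, ?_⟩
    · change (if h : s ∈ F then x ⟨s, h⟩ else 1) ∈ X
      rw [dif_pos hs]; exact hx _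
    · rw [← Finset.prod_coe_sort F]
      refine Finset.prod_congr rfl fun s _ => ?_
      change _ = dualAct γ (if h : s.1 ∈ F then x ⟨s.1, h⟩ else 1) s.1
      rw [dif_pos s.2]
      rfl

end

section

variable {S K : Type*} [Monoid S] [CommGroup K] [TopologicalSpace K] [IsTopologicalGroup K]
  [CompactSpace K] [T2Space K] (γ : EndAction S K)

/-- covering numbers are at most trajectories, up to an error in the exponential rate -/
theorem top_le_alg (𝒰 : Set (Set K)) (h𝒰 : IsFiniteOpenCover 𝒰) (ε : ℝ) (hε : 0 < ε) :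
    ∃ X : Finset (PontryaginDual K), X.Nonempty ∧ ∀ F : Finset S, F.Nonempty →
      topRate γ 𝒰 F ≤ algRate γ X F + (ε : EReal) := by
  obtain ⟨X, hX, h⟩ := thmA h𝒰.2.1 h𝒰.2.2 ε hε
  refine ⟨X, hX, fun F hF => ?_⟩
  have h1 := h F (fun s : F => γ.toEnd s.1)
  rw [← joinCover_eq, ← trajectory_eq, Fintype.card_coe] at h1
  have hc : (0 : ℝ) < F.card := by exact_mod_cast hF.card_pos
  rw [topRate, algRate, ← EReal.coe_add, EReal.coe_le_coe_iff, div_le_iff₀ hc, add_mul,
    div_mul_cancel₀ _ hc.ne']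
  exact h1

/-- trajectories are at most covering numbers, up to an error in the exponential rate -/
theorem alg_le_top (X : Finset (PontryaginDual K)) (hX : X.Nonempty) (ε : ℝ) (hε : 0 < ε) :
    ∃ 𝒰 : Set (Set K), IsFiniteOpenCover 𝒰 ∧ ∀ F : Finset S, F.Nonempty →
      algRate γ X F ≤ topRate γ 𝒰 F + (ε : EReal) := by
  obtain ⟨𝒱, h1, h2, h3, h⟩ := thmB X hX ε hε
  refine ⟨𝒱, ⟨h1, h2, h3⟩, fun F hF => ?_⟩
  have h1 := h F (fun s : F => γ.toEnd s.1)
  rw [← joinCover_eq, ← trajectory_eq, Fintype.card_coe] at h1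
  have hc : (0 : ℝ) < F.card := by exact_mod_cast hF.card_pos
  rw [topRate, algRate, ← EReal.coe_add, EReal.coe_le_coe_iff, div_le_iff₀ hc, add_mul,
    div_mul_cancel₀ _ hc.ne']
  exact h1

variable {I : Type*} [Preorder I] [IsDirected I (· ≤ ·)] [Nonempty I] (F : I → Finset S)
  (hF : ∀ i, (F i).Nonempty)

include hF

theorem bridge_sup : hTopSup γ F = hAlgSup γ F := by
  apply le_antisymm
  · refine iSup_le fun 𝒰 => le_of_eps fun ε hε => ?_
    obtain ⟨X, hX, h⟩ := top_le_alg γ 𝒰.1 𝒰.2 ε hε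
    refine (limsup_le_eps ε (Eventually.of_forall fun i => h (F i) (hF i))).trans ?_
    gcongr
    exact le_iSup (fun X : {X : Finset (PontryaginDual K) // X.Nonempty} =>
      limsup (fun i => algRate γ X.1 (F i)) atTop) ⟨X, hX⟩
  · refine iSup_le fun X => le_of_eps fun ε hε => ?_
    obtain ⟨𝒰, h𝒰, h⟩ := alg_le_top γ X.1 X.2 ε hε
    refine (limsup_le_eps ε (Eventually.of_forall fun i => h (F i) (hF i))).trans ?_
    gcongr
    exact le_iSup (fun 𝒰 : {𝒰 : Set (Set K) // IsFiniteOpenCover 𝒰} =>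
      limsup (fun i => topRate γ 𝒰.1 (F i)) atTop) ⟨𝒰, h𝒰⟩

theorem bridge_inf : hTopInf γ F = hAlgInf γ F := by
  apply le_antisymm
  · refine iSup_le fun 𝒰 => le_of_eps fun ε hε => ?_
    obtain ⟨X, hX, h⟩ := top_le_alg γ 𝒰.1 𝒰.2 ε hε
    refine (liminf_le_eps ε (Eventually.of_forall fun i => h (F i) (hF i))).trans ?_
    gcongr
    exact le_iSup (fun X : {X : Finset (PontryaginDual K) // X.Nonempty} =>
      liminf (fun i => algRate γ X.1 (F i)) atTop) ⟨X, hX⟩
  · refine iSup_le fun X => le_of_eps fun ε hε => ?_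
    obtain ⟨𝒰, h𝒰, h⟩ := alg_le_top γ X.1 X.2 ε hε
    refine (liminf_le_eps ε (Eventually.of_forall fun i => h (F i) (hF i))).trans ?_
    gcongr
    exact le_iSup (fun 𝒰 : {𝒰 : Set (Set K) // IsFiniteOpenCover 𝒰} =>
      liminf (fun i => topRate γ 𝒰.1 (F i)) atTop) ⟨𝒰, h𝒰⟩

theorem bridge_has {h h' : EReal} (ht : HasTopEntropy γ F h) (ha : HasAlgEntropy γ F h') : h = h' := by
  obtain ⟨L, hL, rfl⟩ := ht
  obtain ⟨L', hL', rfl⟩ := ha
  have h1 : hTopSup γ F = ⨆ 𝒰, L 𝒰 := by
    unfold hTopSup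
    congr 1
    ext1 𝒰
    exact (hL 𝒰).limsup_eq
  have h2 : hAlgSup γ F = ⨆ X, L' X := by
    unfold hAlgSup
    congr 1
    ext1 X
    exact (hL' X).limsup_eq
  rw [← h1, ← h2, bridge_sup γ F hF]

end

end Pool.Agent.X323.BT
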