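import Pool.Agent.X323.BT.Count
import Pool.Agent.TH264.Bridge.PW

/-!
# Convex combinations of characters concentrated near the identity
-/

set_option autoImplicit false

namespace Pool.Agent.X323.BT

open MeasureTheory Filter Topology
open scoped ComplexConjugate

variable {K : Type*} [CommGroup K] [TopologicalSpace K] [IsTopologicalGroup K]

/-- the characters as complex functions -/
def charFun (K : Type*) [CommGroup K] [TopologicalSpace K] : Set (K → ℂ) :=
  Set.range (fun χ : PontryaginDual K => fun k => ((χ k : Circle) : ℂ))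

omit [IsTopologicalGroup K] in
lemma one_mem : (1 : K → ℂ) ∈ convexHull ℝ (charFun K) :=
  subset_convexHull ℝ _ ⟨1, by
    ext k
    change (((1 : PontryaginDual K) k : Circle) : ℂ) = 1
    rw [PontryaginDual.one_apply]; simp⟩

omit [IsTopologicalGroup K] in
lemma conv_mul {f g : K → ℂ} (hf : f ∈ convexHull ℝ (charFun K)) (hg : g ∈ convexHull ℝ (charFun K)) :
    f * g ∈ convexHull ℝ (charFun K) := by
  have h1 : ∀ b ∈ charFun K, ∀ a ∈ convexHull ℝ (charFun K), a * b ∈ convexHull ℝ (charFun K) := by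
    intro b hb
    have h2 : convexHull ℝ (charFun K) ⊆
        (LinearMap.mulRight ℝ b) ⁻¹' (convexHull ℝ (charFun K)) := by
      apply convexHull_min
      · rintro a ⟨χ, rfl⟩
        obtain ⟨ψ, rfl⟩ := hb
        apply subset_convexHull
        exact ⟨χ * ψ, by ext k; rfl⟩
      · exact (convex_convexHull ℝ _).linear_preimage _
    intro a ha
    exact h2 ha
  have h3 : convexHull ℝ (charFun K) ⊆
      (LinearMap.mulLeft ℝ f) ⁻¹' (convexHull ℝ (charFun K)) := by
    apply convexHull_min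
    · intro b hb
      exact h1 b hb f hf
    · exact (convex_convexHull ℝ _).linear_preimage _
  exact h3 hg

lemma norm_half_le (z : Circle) : ‖(1 / 2 : ℂ) * (1 + (z : ℂ))‖ ≤ 1 := by
  rw [norm_mul]
  have h1 : ‖(1 + (z : ℂ))‖ ≤ 2 := by
    refine (norm_add_le _ _).trans ?_
    rw [Circle.norm_coe]
    norm_num
  have h2 : ‖(1 / 2 : ℂ)‖ = 1 / 2 := by norm_num
  rw [h2]
  linarith

lemma norm_half_lt (z : Circle) (hz : z ≠ 1) : ‖(1 / 2 : ℂ) * (1 + (z : ℂ))‖ < 1 := by
  have h0 : Complex.normSq (z : ℂ) = 1 := Circle.normSq_coe z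
  rw [Complex.normSq_apply] at h0
  have h1 : (z : ℂ).re < 1 := by
    by_contra h
    push Not at h
    have h2 : (z : ℂ).re = 1 := by nlinarith [mul_self_nonneg (z : ℂ).im]
    have h3 : (z : ℂ).im = 0 := by
      rw [h2] at h0
      nlinarith
    apply hz
    apply Circle.coe_eq_one.1
    apply Complex.ext
    · simpa using h2
    · simpa using h3
  have h4 : ‖(1 / 2 : ℂ) * (1 + (z : ℂ))‖ ^ 2 < 1 := by
    rw [← Complex.normSq_eq_norm_sq, Complex.normSq_apply]
    simp only [Complex.mul_re, Complex.mul_im, Complex.add_re, Complex.add_im, Complex.one_re, Complex.one_im]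
    norm_num
    nlinarith
  by_contra h
  push Not at h
  nlinarith [norm_nonneg ((1 / 2 : ℂ) * (1 + (z : ℂ)))]

theorem exists_kernel [CompactSpace K] [T2Space K] (W : Set K) (hW : W ∈ 𝓝 (1 : K)) (δ : ℝ) (hδ : 0 < δ) :
    ∃ (J : Type) (_ : Fintype J) (χ : J → PontryaginDual K) (w : J → ℝ), (∀ j, 0 ≤ w j) ∧
      ∑ j, w j = 1 ∧ ∀ k ∉ W, ‖∑ j, (w j : ℂ) * ((χ j k : Circle) : ℂ)‖ ^ 2 ≤ δ := by
  classical
  obtain ⟨W', hW'W, hW'o, hW'1⟩ := mem_nhds_iff.1 hW
  have hcpt : IsCompact W'ᶜ := hW'o.isClosed_compl.isCompact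
  obtain ⟨Y, hY⟩ := hcpt.elim_finite_subcover (fun χ : PontryaginDual K => {k | χ k ≠ 1})
    (fun χ => by
      have : Continuous fun k => χ k := χ.continuous_toFun
      exact isOpen_ne_fun this continuous_const)
    (by
      intro k hk
      have hk1 : k ≠ 1 := fun h => hk (h ▸ hW'1)
      obtain ⟨χ, hχc, hχ⟩ := Pool.Agent.TH264.Bridge.char_sep_mul K k hk1
      exact Set.mem_iUnion.2 ⟨(⟨χ, hχc⟩ : K →ₜ* Circle), hχ⟩)
  set f0 : K → ℂ := ∏ χ ∈ Y, (fun k => (1 / 2 : ℂ) * (1 + ((χ k : Circle) : ℂ))) with hf0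
  have hf0k : ∀ k, f0 k = ∏ χ ∈ Y, ((1 / 2 : ℂ) * (1 + ((χ k : Circle) : ℂ))) := by
    intro k
    rw [hf0, Finset.prod_apply]
  have hmem : f0 ∈ convexHull ℝ (charFun K) := by
    rw [hf0]
    refine Finset.prod_induction _ (fun f => f ∈ convexHull ℝ (charFun K)) (fun f g hf hg => conv_mul hf hg)
      one_mem ?_
    intro χ _
    have h1 : (1 / 2 : ℝ) • (1 : K → ℂ) + (1 / 2 : ℝ) • (fun k => ((χ k : Circle) : ℂ)) ∈
        convexHull ℝ (charFun K) :=
      (convex_convexHull ℝ _) one_mem (subset_convexHull ℝ _ ⟨χ, rfl⟩) (by norm_num) (by norm_num)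
        (by norm_num)
    convert h1 using 1
    ext k
    simp only [Pi.add_apply, Pi.smul_apply, Pi.one_apply, Complex.real_smul]
    push_cast
    ring
  have hcont : Continuous f0 := by
    have : f0 = fun k => ∏ χ ∈ Y, ((1 / 2 : ℂ) * (1 + ((χ k : Circle) : ℂ))) := funext hf0k
    rw [this]
    apply continuous_finsetProd
    intro χ _
    exact continuous_const.mul (continuous_const.add (char_continuous χ))
  have hlt : ∀ k ∈ W'ᶜ, ‖f0 k‖ < 1 := by
    intro k hk
    obtain ⟨χ, hχY, hχk⟩ := Set.mem_iUnion₂.1 (hY hk)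
    rw [hf0k, norm_prod, ← Finset.mul_prod_erase _ _ hχY]
    have h1 := norm_half_lt (χ k) hχk
    have h2 : ∏ ψ ∈ Y.erase χ, ‖(1 / 2 : ℂ) * (1 + ((ψ k : Circle) : ℂ))‖ ≤ 1 :=
      Finset.prod_le_one (fun _ _ => norm_nonneg _) (fun ψ _ => norm_half_le (ψ k))
    have h3 : 0 ≤ ∏ ψ ∈ Y.erase χ, ‖(1 / 2 : ℂ) * (1 + ((ψ k : Circle) : ℂ))‖ :=
      Finset.prod_nonneg fun _ _ => norm_nonneg _
    nlinarith [norm_nonneg ((1 / 2 : ℂ) * (1 + ((χ k : Circle) : ℂ)))]
  obtain ⟨m, hm⟩ : ∃ m : ℕ, ∀ k ∈ W'ᶜ, ‖(f0 ^ m) k‖ ^ 2 ≤ δ := by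
    by_cases hne : (W'ᶜ).Nonempty
    · obtain ⟨k0, hk0, hmax⟩ := hcpt.exists_isMaxOn hne (hcont.norm.continuousOn)
      have hρ := hlt k0 hk0
      obtain ⟨m, hm⟩ := exists_pow_lt_of_lt_one hδ (show ‖f0 k0‖ ^ 2 < 1 by nlinarith [norm_nonneg (f0 k0)])
      refine ⟨m, fun k hk => ?_⟩
      rw [Pi.pow_apply, norm_pow, ← pow_mul, mul_comm m 2, pow_mul]
      refine le_trans ?_ hm.le
      gcongr
      exact hmax hk
    · refine ⟨0, fun k hk => absurd ⟨k, hk⟩ hne⟩
  have hmem2 : f0 ^ m ∈ convexHull ℝ (charFun K) := by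
    induction m with
    | zero => rw [pow_zero]; exact one_mem
    | succ n ih =>
      clear hm
      have : ∀ n, f0 ^ n ∈ convexHull ℝ (charFun K) := by
        intro n
        induction n with
        | zero => rw [pow_zero]; exact one_mem
        | succ n ih => rw [pow_succ]; exact conv_mul ih hmem
      exact this _
  rw [mem_convexHull_iff_exists_fintype] at hmem2
  obtain ⟨J, hJ, w, z, hw0, hw1, hz, hsum⟩ := hmem2
  choose χ hχ using hz
  refine ⟨J, hJ, χ, w, hw0, hw1, fun k hk => ?_⟩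
  have h1 := hm k (fun h => hk (hW'W h))
  have h2 : (f0 ^ m) k = ∑ j, (w j : ℂ) * ((χ j k : Circle) : ℂ) := by
    rw [← hsum, Finset.sum_apply]
    refine Finset.sum_congr rfl fun j _ => ?_
    rw [Pi.smul_apply, Complex.real_smul, ← hχ j]
  rwa [← h2]

end Pool.Agent.X323.BT
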