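import Pool.Agent.X323.BT.Cover

/-!
# The two comparison theorems between covering numbers and trajectories of characters
-/

set_option autoImplicit false

namespace Pool.Agent.X323.BT

open MeasureTheory Filter Topology

variable {K : Type*} [CommGroup K] [TopologicalSpace K] [IsTopologicalGroup K]

/-- Lebesgue number lemma -/
lemma lebesgue [CompactSpace K] {𝒰 : Set (Set K)} (hopen : ∀ U ∈ 𝒰, IsOpen U) (hcov : ⋃₀ 𝒰 = Set.univ) :
    ∃ V ∈ 𝓝 (1 : K), ∀ x : K, ∃ u ∈ 𝒰, ∀ v ∈ V, x * v ∈ u := by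
  classical
  have h1 : ∀ x : K, ∃ u ∈ 𝒰, x ∈ u := by
    intro x
    have : x ∈ ⋃₀ 𝒰 := by rw [hcov]; trivial
    simpa using this
  choose u hu hxu using h1
  have h2 : ∀ x : K, ∃ V : Set K, IsOpen V ∧ (1 : K) ∈ V ∧ ∀ v ∈ V, ∀ w ∈ V, v * w ∈ {g | x * g ∈ u x} := by
    intro x
    apply exists_open_nhds_one_split
    have h3 : IsOpen {g | x * g ∈ u x} := (hopen _ (hu x)).preimage (continuous_const.mul continuous_id)
    refine h3.mem_nhds ?_
    change x * 1 ∈ u x
    rw [mul_one]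
    exact hxu x
  choose V hVo hV1 hVV using h2
  obtain ⟨t, ht⟩ := (isCompact_univ : IsCompact (Set.univ : Set K)).elim_nhds_subcover
    (fun x => {k | x⁻¹ * k ∈ V x}) (fun x _ => by
      have h3 : IsOpen {k | x⁻¹ * k ∈ V x} := (hVo x).preimage (continuous_const.mul continuous_id)
      refine h3.mem_nhds ?_
      change x⁻¹ * x ∈ V x
      rw [inv_mul_cancel]
      exact hV1 x)
  refine ⟨⋂ x ∈ t, V x, ?_, ?_⟩
  · refine (isOpen_biInter_finset fun x _ => hVo x).mem_nhds ?_
    exact Set.mem_iInter₂.2 fun x _ => hV1 x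
  · intro k
    obtain ⟨x, hx, hk⟩ := Set.mem_iUnion₂.1 (ht.2 (Set.mem_univ k))
    refine ⟨u x, hu x, fun v hv => ?_⟩
    have h3 := hVV x _ hk v (Set.mem_iInter₂.1 hv x hx)
    have h4 : x * (x⁻¹ * k * v) = k * v := by group
    rw [← h4]
    exact h3

section est

variable [CompactSpace K] [MeasurableSpace K] [BorelSpace K] (μ : Measure K) [IsProbabilityMeasure μ]
  [μ.IsMulLeftInvariant]
variable {ι : Type*} [Fintype ι] (γ : ι → (K →ₜ* K))

lemma keyA {U W : Set K} (hU : IsOpen U) (hUW : ∀ a ∈ U, ∀ b ∈ U, a⁻¹ * b ∈ W) (Y : Finset K)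
    (hY : ∀ k : K, ∃ y ∈ Y, y⁻¹ * k ∈ U) (f : K → ℝ) (hf : Continuous f) (hf0 : ∀ k, 0 ≤ f k)
    (hf1 : ∀ k, f k ≤ 1) (δ : ℝ) (hδ : 0 ≤ δ) (hfδ : ∀ k ∉ U, f k ≤ δ) :
    ∫ k, ∏ i, f (γ i k) ∂μ ≤ (1 + δ * Y.card) ^ Fintype.card ι * μ.real (core γ W) := by
  classical
  let wt : Option Y → ℝ := fun o => o.elim 1 (fun _ => δ)
  let pt : Option Y → K := fun o => o.elim 1 (fun y => y.1)
  have hwt0 : ∀ o, 0 ≤ wt o := by
    rintro (_ | y)
    · exact zero_le_one
    · exact hδ
  let E : (ι → Option Y) → Set K := fun φ => ⋂ i, (γ i) ⁻¹' {k | (pt (φ i))⁻¹ * k ∈ U}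
  have hE : ∀ φ, IsOpen (E φ) := fun φ => isOpen_iInter_of_finite fun i =>
    (hU.preimage (continuous_const.mul continuous_id)).preimage (γ i).continuous_toFun
  have h1 : ∀ k, f k ≤ ∑ o : Option Y, wt o * (if (pt o)⁻¹ * k ∈ U then 1 else 0) := by
    intro k
    have h0 : ∀ o ∈ (Finset.univ : Finset (Option Y)), 0 ≤ wt o * (if (pt o)⁻¹ * k ∈ U then (1 : ℝ) else 0) := by
      intro o _
      apply mul_nonneg (hwt0 o)
      split_ifs <;> norm_num
    by_cases hk : k ∈ U
    · refine le_trans ?_ (Finset.single_le_sum h0 (Finset.mem_univ none))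
      have : (pt none)⁻¹ * k ∈ U := by
        change (1 : K)⁻¹ * k ∈ U
        rwa [inv_one, one_mul]
      rw [if_pos this, mul_one]
      exact hf1 k
    · obtain ⟨y, hy, hyk⟩ := hY k
      refine le_trans ?_ (Finset.single_le_sum h0 (Finset.mem_univ (some (⟨y, hy⟩ : Y))))
      have : (pt (some (⟨y, hy⟩ : Y)))⁻¹ * k ∈ U := hyk
      rw [if_pos this, mul_one]
      exact hfδ k hk
  have h2 : ∀ k, ∏ i, f (γ i k) ≤ ∑ φ : ι → Option Y, (∏ i, wt (φ i)) * (E φ).indicator (fun _ => (1 : ℝ)) k := by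
    intro k
    calc ∏ i, f (γ i k) ≤ ∏ i, ∑ o : Option Y, wt o * (if (pt o)⁻¹ * (γ i k) ∈ U then 1 else 0) :=
          Finset.prod_le_prod (fun i _ => hf0 _) (fun i _ => h1 _)
      _ = ∑ φ : ι → Option Y, ∏ i, (wt (φ i) * (if (pt (φ i))⁻¹ * (γ i k) ∈ U then 1 else 0)) := by
          rw [Finset.prod_univ_sum, Fintype.piFinset_univ]
      _ = _ := by
          refine Finset.sum_congr rfl fun φ _ => ?_
          rw [Finset.prod_mul_distrib]
          congr 1
          by_cases hk : k ∈ E φ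
          · rw [Set.indicator_of_mem hk]
            refine Finset.prod_eq_one fun i _ => ?_
            exact if_pos (Set.mem_iInter.1 hk i)
          · rw [Set.indicator_of_notMem hk]
            have : ∃ i, ¬ (pt (φ i))⁻¹ * (γ i k) ∈ U := by
              by_contra hcon
              push Not at hcon
              exact hk (Set.mem_iInter.2 hcon)
            obtain ⟨i, hi⟩ := this
            exact Finset.prod_eq_zero (Finset.mem_univ i) (if_neg hi)
  have hint : ∀ φ : ι → Option Y, Integrable (fun k => (∏ i, wt (φ i)) * (E φ).indicator (fun _ => (1 : ℝ)) k) μ :=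
    fun φ => ((integrable_const (1 : ℝ)).indicator (hE φ).measurableSet).const_mul _
  have hwt : ∑ o : Option Y, wt o = 1 + δ * Y.card := by
    rw [Fintype.sum_option]
    simp only [wt, Option.elim]
    rw [Finset.sum_const, nsmul_eq_mul, Finset.card_univ, Fintype.card_coe, mul_comm]
  calc ∫ k, ∏ i, f (γ i k) ∂μ
      ≤ ∫ k, ∑ φ : ι → Option Y, (∏ i, wt (φ i)) * (E φ).indicator (fun _ => (1 : ℝ)) k ∂μ := by
        apply integral_mono
        · apply integrable_of_cont
          apply continuous_finsetProd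
          intro i _
          exact hf.comp (γ i).continuous_toFun
        · exact integrable_finsetSum _ fun φ _ => hint φ
        · exact h2
    _ = ∑ φ : ι → Option Y, (∏ i, wt (φ i)) * μ.real (E φ) := by
        rw [integral_finsetSum _ fun φ _ => hint φ]
        refine Finset.sum_congr rfl fun φ _ => ?_
        rw [integral_const_mul, integral_indicator (hE φ).measurableSet]
        simp
    _ ≤ ∑ φ : ι → Option Y, (∏ i, wt (φ i)) * μ.real (core γ W) := by
        refine Finset.sum_le_sum fun φ _ => ?_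
        apply mul_le_mul_of_nonneg_left _ (Finset.prod_nonneg fun i _ => hwt0 _)
        exact ENNReal.toReal_mono (measure_ne_top μ _) (piece_le γ μ hUW (fun i => pt (φ i)))
    _ = (1 + δ * Y.card) ^ Fintype.card ι * μ.real (core γ W) := by
        rw [← Finset.sum_mul]
        congr 1
        have h3 := Finset.prod_univ_sum (fun _ : ι => (Finset.univ : Finset (Option Y))) (fun _ j => wt j)
        rw [Fintype.piFinset_univ] at h3
        rw [← h3, hwt, Finset.prod_const, Finset.card_univ]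

lemma keyB {W : Set K} (hW : IsOpen W) (f : K → ℝ) (hf : Continuous f) (hf0 : ∀ k, 0 ≤ f k) (c : ℝ)
    (hc : 0 ≤ c) (hfc : ∀ k ∈ W, c ≤ f k) :
    c ^ Fintype.card ι * μ.real (core γ W) ≤ ∫ k, ∏ i, f (γ i k) ∂μ := by
  have h1 : ∫ k, (core γ W).indicator (fun _ => c ^ Fintype.card ι) k ∂μ = c ^ Fintype.card ι * μ.real (core γ W) := by
    rw [integral_indicator (core_open γ hW).measurableSet]
    simp [mul_comm]
  rw [← h1]
  apply integral_mono
  · exact (integrable_const _).indicator (core_open γ hW).measurableSet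
  · apply integrable_of_cont
    apply continuous_finsetProd
    intro i _
    exact hf.comp (γ i).continuous_toFun
  · intro k
    change (core γ W).indicator (fun _ => c ^ Fintype.card ι) k ≤ ∏ i, f (γ i k)
    by_cases hk : k ∈ core γ W
    · rw [Set.indicator_of_mem hk]
      calc c ^ Fintype.card ι = ∏ _i : ι, c := by rw [Finset.prod_const, Finset.card_univ]
        _ ≤ _ := Finset.prod_le_prod (fun _ _ => hc) (fun i _ => hfc _ (Set.mem_iInter.1 hk i))
    · rw [Set.indicator_of_notMem hk]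
      exact Finset.prod_nonneg fun i _ => hf0 _

end est


section main

variable [CompactSpace K] [T2Space K]

lemma traj_pos {ι : Type*} [Fintype ι] (γ : ι → (K →ₜ* K)) {X : Set (PontryaginDual K)}
    (hX : X.Finite) (hne : X.Nonempty) : 0 < Nat.card (traj γ X) := by
  obtain ⟨x, hx⟩ := hne
  haveI : Finite (traj γ X) := (traj_finite γ hX).to_subtype
  haveI : Nonempty (traj γ X) := ⟨⟨_, fun _ => x, fun _ => hx, rfl⟩⟩
  exact Nat.card_pos

/-- a Haar probability measure -/
lemma exists_haar [MeasurableSpace K] [BorelSpace K] :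
    ∃ μ : Measure K, IsProbabilityMeasure μ ∧ μ.IsMulLeftInvariant ∧ μ.IsOpenPosMeasure := by
  refine ⟨Measure.haarMeasure ⊤, ⟨?_⟩, inferInstance, inferInstance⟩
  have := Measure.haarMeasure_self (K₀ := (⊤ : TopologicalSpace.PositiveCompacts K))
  simpa using this

universe u

/-- covering numbers are controlled by trajectories -/
theorem thmA {𝒰 : Set (Set K)} (hopen : ∀ U ∈ 𝒰, IsOpen U) (hcov : ⋃₀ 𝒰 = Set.univ) (ε : ℝ) (hε : 0 < ε) :
    ∃ X : Finset (PontryaginDual K), X.Nonempty ∧ ∀ (ι : Type u) [Fintype ι] (γ : ι → (K →ₜ* K)),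
      Real.log (coverNumber (jn γ 𝒰)) ≤
        Real.log (Nat.card (traj γ (X : Set (PontryaginDual K)))) + ε * Fintype.card ι := by
  classical
  letI : MeasurableSpace K := borel K
  haveI : BorelSpace K := ⟨rfl⟩
  obtain ⟨μ, hμ1, hμ2, hμ3⟩ := exists_haar (K := K)
  obtain ⟨V, hV, hLeb⟩ := lebesgue hopen hcov
  obtain ⟨W0, hW0, hW0V⟩ := exists_nhds_split_inv hV
  obtain ⟨W, hWW0, hWo, hW1⟩ := mem_nhds_iff.1 hW0
  obtain ⟨U0, hU0, hU0W⟩ := exists_nhds_split_inv (hWo.mem_nhds hW1)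
  obtain ⟨U, hUU0, hUo, hU1⟩ := mem_nhds_iff.1 hU0
  have hWV : ∀ a ∈ W, ∀ b ∈ W, a * b⁻¹ ∈ V := fun a ha b hb => by
    rw [← div_eq_mul_inv]; exact hW0V a (hWW0 ha) b (hWW0 hb)
  have hUW : ∀ a ∈ U, ∀ b ∈ U, a⁻¹ * b ∈ W := fun a ha b hb => by
    rw [mul_comm, ← div_eq_mul_inv]; exact hU0W b (hUU0 hb) a (hUU0 ha)
  obtain ⟨Y, hY⟩ := (isCompact_univ : IsCompact (Set.univ : Set K)).elim_nhds_subcover
    (fun x => {k | x⁻¹ * k ∈ U}) (fun x _ => by
      have h3 : IsOpen {k | x⁻¹ * k ∈ U} := hUo.preimage (continuous_const.mul continuous_id)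
      refine h3.mem_nhds ?_
      change x⁻¹ * x ∈ U
      rw [inv_mul_cancel]
      exact hU1)
  have hY' : ∀ k : K, ∃ y ∈ Y, y⁻¹ * k ∈ U := by
    intro k
    obtain ⟨x, hx, hk⟩ := Set.mem_iUnion₂.1 (hY.2 (Set.mem_univ k))
    exact ⟨x, hx, hk⟩
  set δ : ℝ := ε / (Y.card + 1) with hδd
  have hδ : 0 < δ := by positivity
  have hδY : δ * Y.card ≤ ε := by
    rw [hδd, div_mul_eq_mul_div, div_le_iff₀ (by positivity)]
    nlinarith [(Nat.cast_nonneg Y.card : (0 : ℝ) ≤ Y.card)]
  obtain ⟨J, hJ, χ, w, hw0, hw1, hker⟩ := exists_kernel U (hUo.mem_nhds hU1) δ hδ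
  refine ⟨Finset.univ.image χ, ?_, ?_⟩
  · rw [Finset.image_nonempty, Finset.univ_nonempty_iff]
    by_contra hcon
    rw [not_nonempty_iff] at hcon
    rw [Finset.univ_eq_empty, Finset.sum_empty] at hw1
    exact zero_ne_one hw1
  intro ι _ γ
  have hX : ((Finset.univ.image χ : Finset (PontryaginDual K)) : Set (PontryaginDual K)) = Set.range χ := by
    simp
  rw [hX]
  set f : K → ℝ := fun k => ‖∑ j, (w j : ℂ) * ((χ j k : Circle) : ℂ)‖ ^ 2 with hf
  have hfc : Continuous f := by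
    apply Continuous.pow
    apply Continuous.norm
    apply continuous_finsetSum
    intro j _
    exact continuous_const.mul (char_continuous (χ j))
  have hf1 : ∀ k, f k ≤ 1 := by
    intro k
    have h1 : ‖∑ j, (w j : ℂ) * ((χ j k : Circle) : ℂ)‖ ≤ 1 := by
      calc ‖∑ j, (w j : ℂ) * ((χ j k : Circle) : ℂ)‖ ≤ ∑ j, ‖(w j : ℂ) * ((χ j k : Circle) : ℂ)‖ :=
            norm_sum_le _ _
        _ = ∑ j, w j := by
            refine Finset.sum_congr rfl fun j _ => ?_
            rw [norm_mul, Circle.norm_coe, mul_one, Complex.norm_real, Real.norm_of_nonneg (hw0 j)]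
        _ = 1 := hw1
    rw [hf]
    exact pow_le_one₀ (norm_nonneg _) h1
  have h1 := lower μ γ χ w hw1
  have h2 := keyA μ γ hUo hUW Y hY' f hfc (fun k => by positivity) hf1 δ hδ.le hker
  have h3 := cover_le_one γ μ hWo hW1 hWV hLeb
  set N := coverNumber (jn γ 𝒰) with hN
  set T := Nat.card (traj γ (Set.range χ)) with hT
  have hTpos : 0 < T := traj_pos γ (Set.finite_range χ) (by
    have : Nonempty J := by
      by_contra hcon
      rw [not_nonempty_iff] at hcon
      rw [Finset.univ_eq_empty, Finset.sum_empty] at hw1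
      exact zero_ne_one hw1
    exact Set.range_nonempty χ)
  have hT1 : (1 : ℝ) ≤ T := by exact_mod_cast hTpos
  have hlogT : 0 ≤ Real.log T := Real.log_nonneg hT1
  rcases Nat.eq_zero_or_pos N with hN0 | hN0
  · rw [hN0, Nat.cast_zero, Real.log_zero]
    positivity
  have hNr : (0 : ℝ) < N := by exact_mod_cast hN0
  have hq : (0 : ℝ) < (1 + δ * Y.card) := by positivity
  have h4 : (1 : ℝ) ≤ T * ((1 + δ * Y.card) ^ Fintype.card ι * μ.real (core γ W)) :=
    h1.trans (mul_le_mul_of_nonneg_left h2 (by positivity))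
  have h5 : (N : ℝ) ≤ T * (1 + δ * Y.card) ^ Fintype.card ι := by
    have h6 : (N : ℝ) * 1 ≤ N * (T * ((1 + δ * Y.card) ^ Fintype.card ι * μ.real (core γ W))) :=
      mul_le_mul_of_nonneg_left h4 hNr.le
    have h7 : (N : ℝ) * (T * ((1 + δ * Y.card) ^ Fintype.card ι * μ.real (core γ W))) =
        (T * (1 + δ * Y.card) ^ Fintype.card ι) * (N * μ.real (core γ W)) := by ring
    rw [h7, mul_one] at h6
    refine h6.trans ?_
    calc (T * (1 + δ * Y.card) ^ Fintype.card ι) * (N * μ.real (core γ W))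
        ≤ (T * (1 + δ * Y.card) ^ Fintype.card ι) * 1 := mul_le_mul_of_nonneg_left h3 (by positivity)
      _ = _ := mul_one _
  calc Real.log N ≤ Real.log (T * (1 + δ * Y.card) ^ Fintype.card ι) := Real.log_le_log hNr h5
    _ = Real.log T + Fintype.card ι * Real.log (1 + δ * Y.card) := by
        rw [Real.log_mul (by positivity) (by positivity), Real.log_pow]
    _ ≤ Real.log T + Fintype.card ι * ε := by
        gcongr
        have := Real.log_le_sub_one_of_pos hq
        linarith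
    _ = _ := by rw [mul_comm]

/-- trajectories are controlled by covering numbers -/
theorem thmB (X : Finset (PontryaginDual K)) (hX : X.Nonempty) (ε : ℝ) (hε : 0 < ε) :
    ∃ 𝒱 : Set (Set K), 𝒱.Finite ∧ (∀ V ∈ 𝒱, IsOpen V) ∧ ⋃₀ 𝒱 = Set.univ ∧
      ∀ (ι : Type u) [Fintype ι] (γ : ι → (K →ₜ* K)),
      Real.log (Nat.card (traj γ (X : Set (PontryaginDual K)))) ≤
        Real.log (coverNumber (jn γ 𝒱)) + ε * Fintype.card ι := by
  classical
  letI : MeasurableSpace K := borel K
  haveI : BorelSpace K := ⟨rfl⟩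
  obtain ⟨μ, hμ1, hμ2, hμ3⟩ := exists_haar (K := K)
  -- the box size
  obtain ⟨L, hL⟩ := exists_nat_gt (2 * X.card / ε)
  have hLpos : 0 < L := by
    have : (0 : ℝ) < L := lt_of_le_of_lt (by positivity) hL
    exact_mod_cast this
  have hLr : (0 : ℝ) < L := by exact_mod_cast hLpos
  set A : K → ℂ := fun k => ∏ x ∈ X, ((L : ℂ)⁻¹ * ∑ n ∈ Finset.range L, ((x k : Circle) : ℂ) ^ n) with hA
  have hAc : Continuous A := by
    apply continuous_finsetProd
    intro x _
    apply Continuous.mul continuous_const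
    apply continuous_finsetSum
    intro n _
    exact (char_continuous x).pow n
  have hA1 : A 1 = 1 := by
    rw [hA]
    refine Finset.prod_eq_one fun x _ => ?_
    rw [map_one]
    simp only [Circle.coe_one, one_pow, Finset.sum_const, Finset.card_range, nsmul_eq_mul, mul_one]
    exact inv_mul_cancel₀ (by exact_mod_cast hLpos.ne')
  set f : K → ℝ := fun k => ‖A k‖ ^ 2 with hf
  have hfc : Continuous f := hAc.norm.pow 2
  set c : ℝ := Real.exp (-(ε / 2)) with hc
  have hcpos : 0 < c := Real.exp_pos _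
  have hc1 : c < 1 := by
    rw [hc, Real.exp_lt_one_iff]
    linarith
  set W : Set K := {k | c < f k} with hW
  have hWo : IsOpen W := isOpen_lt continuous_const hfc
  have hW1 : (1 : K) ∈ W := by
    change c < ‖A 1‖ ^ 2
    rw [hA1]
    simpa using hc1
  obtain ⟨U0, hU0, hU0W⟩ := exists_nhds_split_inv (hWo.mem_nhds hW1)
  obtain ⟨U, hUU0, hUo, hU1⟩ := mem_nhds_iff.1 hU0
  have hUW : ∀ a ∈ U, ∀ b ∈ U, a⁻¹ * b ∈ W := fun a ha b hb => by
    rw [mul_comm, ← div_eq_mul_inv]; exact hU0W b (hUU0 hb) a (hUU0 ha)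
  obtain ⟨Y, hY⟩ := (isCompact_univ : IsCompact (Set.univ : Set K)).elim_nhds_subcover
    (fun x => {k | x⁻¹ * k ∈ U}) (fun x _ => by
      have h3 : IsOpen {k | x⁻¹ * k ∈ U} := hUo.preimage (continuous_const.mul continuous_id)
      refine h3.mem_nhds ?_
      change x⁻¹ * x ∈ U
      rw [inv_mul_cancel]
      exact hU1)
  set 𝒱 : Set (Set K) := (fun y : K => {k | y⁻¹ * k ∈ U}) '' (Y : Set K) with h𝒱
  have h𝒱fin : 𝒱.Finite := (Finset.finite_toSet Y).image _
  have h𝒱cov : ⋃₀ 𝒱 = Set.univ := by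
    rw [Set.eq_univ_iff_forall]
    intro k
    obtain ⟨x, hx, hk⟩ := Set.mem_iUnion₂.1 (hY.2 (Set.mem_univ k))
    exact ⟨_, ⟨x, hx, rfl⟩, hk⟩
  refine ⟨𝒱, h𝒱fin, ?_, h𝒱cov, ?_⟩
  · rintro V ⟨y, _, rfl⟩
    exact hUo.preimage (continuous_const.mul continuous_id)
  intro ι _ γ
  have h1 := upper μ γ X L hLpos
  have h2 := keyB μ γ hWo f hfc (fun k => by positivity) c hcpos.le (fun k hk => le_of_lt hk)
  have h3 := one_le_cover γ μ hUW h𝒱fin h𝒱cov (by
    rintro V ⟨y, _, rfl⟩
    exact ⟨y, rfl⟩)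
  set N := coverNumber (jn γ 𝒱) with hN
  set T := Nat.card (traj γ (X : Set (PontryaginDual K))) with hT
  set R : ℝ := ((((L + 1 : ℕ) : ℝ) / L) ^ X.card) with hR
  have hRpos : 0 < R := by positivity
  have hTpos : 0 < T := traj_pos γ (Finset.finite_toSet X) hX
  have hTr : (0 : ℝ) < T := by exact_mod_cast hTpos
  have hNr : (0 : ℝ) < N := by
    rcases Nat.eq_zero_or_pos N with hN0 | hN0
    · rw [hN0] at h3
      norm_num at h3
    · exact_mod_cast hN0
  have h4 : (T : ℝ) * (c ^ Fintype.card ι * μ.real (core γ W)) ≤ R ^ Fintype.card ι :=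
    (mul_le_mul_of_nonneg_left h2 hTr.le).trans h1
  have h5 : (T : ℝ) * c ^ Fintype.card ι ≤ N * R ^ Fintype.card ι := by
    calc (T : ℝ) * c ^ Fintype.card ι = (T * c ^ Fintype.card ι) * 1 := (mul_one _).symm
      _ ≤ (T * c ^ Fintype.card ι) * (N * μ.real (core γ W)) :=
          mul_le_mul_of_nonneg_left h3 (by positivity)
      _ = N * (T * (c ^ Fintype.card ι * μ.real (core γ W))) := by ring
      _ ≤ N * R ^ Fintype.card ι := mul_le_mul_of_nonneg_left h4 hNr.le
  have h6 := Real.log_le_log (by positivity) h5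
  rw [Real.log_mul (by positivity) (by positivity), Real.log_mul (by positivity) (by positivity),
    Real.log_pow, Real.log_pow] at h6
  have hlogc : Real.log c = -(ε / 2) := by rw [hc, Real.log_exp]
  have hlogR : Real.log R ≤ ε / 2 := by
    rw [hR, Real.log_pow]
    have h7 : Real.log (((L + 1 : ℕ) : ℝ) / L) ≤ 1 / L := by
      have h8 := Real.log_le_sub_one_of_pos (show (0 : ℝ) < ((L + 1 : ℕ) : ℝ) / L by positivity)
      refine h8.trans (le_of_eq ?_)
      push_cast
      field_simp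
      ring
    calc (X.card : ℝ) * Real.log (((L + 1 : ℕ) : ℝ) / L) ≤ X.card * (1 / L) := by gcongr
      _ ≤ ε / 2 := by
          rw [mul_one_div, div_le_iff₀ hLr]
          rw [div_lt_iff₀ hε] at hL
          nlinarith
  rw [hlogc] at h6
  have h9 : (Fintype.card ι : ℝ) * Real.log R ≤ Fintype.card ι * (ε / 2) :=
    mul_le_mul_of_nonneg_left hlogR (Nat.cast_nonneg _)
  nlinarith

end main

end Pool.Agent.X323.BT
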