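import Mathlib

/-!
# Finite Parseval identity for characters of a compact abelian group
-/

set_option autoImplicit false

namespace Pool.Agent.X323.BT

open MeasureTheory
open scoped ComplexConjugate

variable {K : Type*} [CommGroup K] [TopologicalSpace K] [IsTopologicalGroup K]
  [MeasurableSpace K] [BorelSpace K] (μ : Measure K) [IsProbabilityMeasure μ] [μ.IsMulLeftInvariant]

omit [IsTopologicalGroup K] [MeasurableSpace K] [BorelSpace K] in
lemma char_continuous (χ : PontryaginDual K) : Continuous (fun k => ((χ k : Circle) : ℂ)) :=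
  by
  have : Continuous fun k => χ k := χ.continuous_toFun
  fun_prop

omit [IsProbabilityMeasure μ] in
lemma integral_char (χ : PontryaginDual K) (hχ : χ ≠ 1) : ∫ k, ((χ k : Circle) : ℂ) ∂μ = 0 := by
  obtain ⟨a, ha⟩ : ∃ a, χ a ≠ 1 := by
    by_contra h
    push Not at h
    exact hχ (PontryaginDual.ext fun a => by rw [h a]; rfl)
  have h1 : ∫ k, ((χ (a * k) : Circle) : ℂ) ∂μ = ∫ k, ((χ k : Circle) : ℂ) ∂μ :=
    integral_mul_left_eq_self (fun k => ((χ k : Circle) : ℂ)) a
  have h2 : ∫ k, ((χ (a * k) : Circle) : ℂ) ∂μ = (χ a : ℂ) * ∫ k, ((χ k : Circle) : ℂ) ∂μ := by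
    rw [← integral_const_mul]
    congr 1
    ext k
    rw [map_mul, Circle.coe_mul]
  rw [h2] at h1
  have h3 : ((χ a : ℂ) - 1) * ∫ k, ((χ k : Circle) : ℂ) ∂μ = 0 := by
    rw [sub_mul, h1]; ring
  rcases mul_eq_zero.1 h3 with h | h
  · exfalso
    apply ha
    have : (χ a : ℂ) = 1 := by linear_combination h
    exact Circle.coe_eq_one.1 this
  · exact h

lemma orth (χ ψ : PontryaginDual K) [Decidable (χ = ψ)] :
    ∫ k, ((χ k : Circle) : ℂ) * conj ((ψ k : Circle) : ℂ) ∂μ = if χ = ψ then 1 else 0 := by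
  have h1 : ∀ k, ((χ k : Circle) : ℂ) * conj ((ψ k : Circle) : ℂ) = (((χ * ψ⁻¹) k : Circle) : ℂ) := by
    intro k
    have : (χ * ψ⁻¹) k = χ k * (ψ k)⁻¹ := rfl
    rw [this, Circle.coe_mul, Circle.coe_inv_eq_conj]
  simp_rw [h1]
  split_ifs with h
  · subst h
    rw [mul_inv_cancel]
    have : ∀ k : K, (((1 : PontryaginDual K) k : Circle) : ℂ) = 1 := fun k => by
      rw [PontryaginDual.one_apply]; simp
    simp_rw [this]
    simp
  · apply integral_char
    intro h2
    exact h (mul_inv_eq_one.1 h2)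

omit [CommGroup K] [IsTopologicalGroup K] [μ.IsMulLeftInvariant] in
lemma integrable_of_cont [CompactSpace K] {E : Type*} [NormedAddCommGroup E] [SecondCountableTopologyEither K E] {f : K → E} (hf : Continuous f) : Integrable f μ :=
  hf.integrable_of_hasCompactSupport (HasCompactSupport.of_compactSpace f)

lemma parseval [CompactSpace K] (T : Finset (PontryaginDual K)) (p : PontryaginDual K → ℝ) :
    ∫ k, ‖∑ χ ∈ T, (p χ : ℂ) * ((χ k : Circle) : ℂ)‖ ^ 2 ∂μ = ∑ χ ∈ T, p χ ^ 2 := by
  classical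
  have h1 : ∀ k : K, ((‖∑ χ ∈ T, (p χ : ℂ) * ((χ k : Circle) : ℂ)‖ ^ 2 : ℝ) : ℂ) =
      ∑ χ ∈ T, ∑ ψ ∈ T, ((p χ : ℂ) * (p ψ : ℂ)) * (((χ k : Circle) : ℂ) * conj ((ψ k : Circle) : ℂ)) := by
    intro k
    rw [Complex.ofReal_pow, ← Complex.mul_conj', map_sum, Finset.sum_mul_sum]
    refine Finset.sum_congr rfl fun χ _ => Finset.sum_congr rfl fun ψ _ => ?_
    rw [map_mul, Complex.conj_ofReal]
    ring
  have h2 : ((∫ k, ‖∑ χ ∈ T, (p χ : ℂ) * ((χ k : Circle) : ℂ)‖ ^ 2 ∂μ : ℝ) : ℂ) = ((∑ χ ∈ T, p χ ^ 2 : ℝ) : ℂ) := by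
    rw [← integral_complex_ofReal]
    simp_rw [h1]
    rw [integral_finsetSum]
    · push_cast
      refine Finset.sum_congr rfl fun χ hχ => ?_
      rw [integral_finsetSum]
      · simp_rw [integral_const_mul, orth]
        rw [Finset.sum_eq_single χ]
        · simp [sq]
        · intro ψ _ hψ
          rw [if_neg (Ne.symm hψ), mul_zero]
        · intro h; exact absurd hχ h
      · intro ψ _
        apply Integrable.const_mul
        apply integrable_of_cont
        exact (char_continuous χ).mul (Complex.continuous_conj.comp (char_continuous ψ))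
    · intro χ _
      apply integrable_finsetSum
      intro ψ _
      apply Integrable.const_mul
      apply integrable_of_cont
      exact (char_continuous χ).mul (Complex.continuous_conj.comp (char_continuous ψ))
  exact_mod_cast h2

end Pool.Agent.X323.BT
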